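import Mathlib

namespace Pool.Agent.Results.MP_dc22f7_an.Counterexample

open Polynomial

def T (a : ℕ → ℝ) : ℕ → ℕ → ℝ
  | 0, k => a k ^ 2 - a (k - 1) * a (k + 1)
  | n + 1, k => T a n k ^ 2 - T a n (k - 1) * T a n (k + 1)

theorem iter (p : ℝ[X]) (j : ℕ) :
    iteratedDeriv j (fun t => p.eval t) = fun t => (derivative^[j] p).eval t := by
  induction j with
  | zero => simp
  | succ j ih =>
    rw [iteratedDeriv_succ, ih, Function.iterate_succ_apply']
    funext t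
    exact Polynomial.deriv _

theorem co (j : ℕ) : ((X + C 100) ^ 40 * (X + C 1) ^ 2 : ℝ[X]).coeff (j + 2) =
    100 ^ (40 - (j + 2)) * (Nat.choose 40 (j + 2) : ℝ) +
    2 * (100 ^ (40 - (j + 1)) * (Nat.choose 40 (j + 1) : ℝ)) +
    100 ^ (40 - j) * (Nat.choose 40 j : ℝ) := by
  have : ((X + C 100) ^ 40 * (X + C 1) ^ 2 : ℝ[X]) =
      (X + C 100) ^ 40 + (X + C 100) ^ 40 * X + (X + C 100) ^ 40 * X + (X + C 100) ^ 40 * X * X := by
    rw [map_one]; ring
  rw [this]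
  simp only [coeff_add, coeff_mul_X, coeff_X_add_C_pow]
  ring

theorem result : ∃ p : ℝ[X], p ≠ 0 ∧
    (∀ z : ℂ, aeval z p = 0 → z.im = 0 ∧ z.re < 0) ∧
    ∃ (n k : ℕ) (x : ℝ), n + 1 ≤ k ∧ 0 ≤ x ∧
      T (fun j => iteratedDeriv j (fun t => p.eval t) x) n k < 0 := by
  refine ⟨(X + C 100) ^ 40 * (X + C 1) ^ 2,
    (((monic_X_add_C _).pow _).mul ((monic_X_add_C _).pow _)).ne_zero, ?_, 4, 5, 0, le_rfl, le_rfl,
    ?_⟩
  · intro z hz
    simp only [map_mul, map_pow, map_add, aeval_X, aeval_C, mul_eq_zero] at hz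
    rcases hz with h | h
    · have h1 := add_eq_zero_iff_eq_neg.1 (pow_eq_zero_iff (by norm_num) |>.1 h)
      rw [h1]; simp
    · have h1 := add_eq_zero_iff_eq_neg.1 (pow_eq_zero_iff (by norm_num) |>.1 h)
      rw [h1]; simp
  · have h : ∀ j, iteratedDeriv j
        (fun t => ((X + C 100) ^ 40 * (X + C 1) ^ 2 : ℝ[X]).eval t) 0 =
        j.factorial * ((X + C 100) ^ 40 * (X + C 1) ^ 2 : ℝ[X]).coeff j := by
      intro j
      rw [iter]
      simp only
      rw [← coeff_zero_eq_eval_zero, coeff_iterate_derivative, zero_add, Nat.descFactorial_self,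
        nsmul_eq_mul]
    have h0 : ((X + C 100) ^ 40 * (X + C 1) ^ 2 : ℝ[X]).coeff 0 = 100 ^ 40 := by
      rw [coeff_zero_eq_eval_zero]; simp
    have h1 : ((X + C 100) ^ 40 * (X + C 1) ^ 2 : ℝ[X]).coeff 1 = 100 ^ 39 * 40 + 2 * 100 ^ 40 := by
      have : ((X + C 100) ^ 40 * (X + C 1) ^ 2 : ℝ[X]) = (X + C 100) ^ 40 + (X + C 100) ^ 40 * X +
          (X + C 100) ^ 40 * X + (X + C 100) ^ 40 * X * X := by
        rw [map_one]; ring
      rw [this]
      simp only [coeff_add, coeff_mul_X, coeff_X_add_C_pow, mul_coeff_zero, coeff_X_zero]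
      norm_num
    simp only [T, h, h0, h1, co 0, co 1, co 2, co 3, co 4, co 5, co 6, co 7, co 8]
    norm_num [Nat.choose, Nat.factorial]

end Pool.Agent.Results.MP_dc22f7_an.Counterexample
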